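import Pool.Agent.H207.TF.Stm
import Pool.Agent.H211.LR.Open

/-!
Project TF (helper207), task INSTG: the instance of `Fam` and `Mk` for a holomorphic family of
rational maps `rf (PP (p s)) (QQ (p s))`, `s = a ^ K`, and a holomorphic critical point `ζ`.
-/

set_option autoImplicit false

open Metric Set MeasureTheory Filter Topology Polynomial
open scoped OnePoint ENNReal

namespace Pool.Agent.H591.TF207

open Pool.Agent.H792R2.CE Pool.Agent.H211.LR Pool.Agent.H211.AD Pool.Agent.H207.TF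

lemma ndiv {x y : ℂ} {b m : ℝ} (hx : ‖x‖ ≤ b) (hm : 0 < m) (hy : m ≤ ‖y‖) : ‖x / y‖ ≤ b / m := by
  rw [norm_div]
  exact div_le_div₀ ((norm_nonneg x).trans hx) hx hm hy

lemma poly_lip (p : ℂ[X]) (R : ℝ) : ∃ L : ℝ, 0 ≤ L ∧ ∀ z ∈ closedBall (0 : ℂ) R,
    ∀ z' ∈ closedBall (0 : ℂ) R, ‖p.eval z - p.eval z'‖ ≤ L * ‖z - z'‖ := by
  obtain ⟨L, hL⟩ := (isCompact_closedBall (0 : ℂ) R).exists_bound_of_continuousOn
    (f := fun z => (derivative p).eval z) (derivative p).continuous.continuousOn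
  refine ⟨max L 0, le_max_right _ _, fun z hz z' hz' => ?_⟩
  exact (convex_closedBall (0 : ℂ) R).norm_image_sub_le_of_norm_deriv_le
    (f := fun z => p.eval z) (C := max L 0) (fun x _ => p.differentiableAt)
    (fun x hx => by rw [Polynomial.deriv]; exact (hL x hx).trans (le_max_left _ _)) hz' hz

lemma poly_bd (p : ℂ[X]) {T : Set ℂ} (hT : IsCompact T) :
    ∃ b : ℝ, 0 ≤ b ∧ ∀ z ∈ T, ‖p.eval z‖ ≤ b := by
  obtain ⟨b, hb⟩ := hT.exists_bound_of_continuousOn (f := fun z => p.eval z)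
    p.continuous.continuousOn
  exact ⟨max b 0, le_max_right _ _, fun z hz => (hb z hz).trans (le_max_left _ _)⟩

lemma alg1 {p q h g s : ℂ} (hq : q ≠ 0) (hd : q + s * g ≠ 0) :
    (p + s * h) / (q + s * g) - p / q = s * (h * q - p * g) / (q * (q + s * g)) := by
  field_simp
  ring

lemma alg2 {p q hv gv h1 g1 s : ℂ} (hq : q ≠ 0) (hd : q + s * (gv + s * g1) ≠ 0) :
    (p + s * (hv + s * h1)) / (q + s * (gv + s * g1)) - p / q - s * ((hv * q - p * gv) / q ^ 2) =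
      s ^ 2 * (-((gv + s * g1) * ((hv + s * h1) * q - p * (gv + s * g1)) /
        (q ^ 2 * (q + s * (gv + s * g1)))) + (h1 * q - p * g1) / q ^ 2) := by
  field_simp
  ring

lemma alg3 {n n' q q' : ℂ} (hq : q ≠ 0) (hq' : q' ≠ 0) :
    n / q - n' / q' = ((n - n') * q' - n' * (q - q')) / (q * q') := by
  field_simp
  ring

lemma two_bd {x y z w : ℂ} {b : ℝ} (hx : ‖x‖ ≤ b) (hy : ‖y‖ ≤ b) (hz : ‖z‖ ≤ b) (hw : ‖w‖ ≤ b) :
    ‖x * y - z * w‖ ≤ 2 * b ^ 2 := by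
  have hb : 0 ≤ b := (norm_nonneg _).trans hx
  have h1 : ‖x * y‖ ≤ b * b := by
    rw [norm_mul]
    exact mul_le_mul hx hy (norm_nonneg _) hb
  have h2 : ‖z * w‖ ≤ b * b := by
    rw [norm_mul]
    exact mul_le_mul hz hw (norm_nonneg _) hb
  have h3 := norm_sub_le (x * y) (z * w)
  nlinarith

/-- second order expansion of the family -/
lemma expand {d : ℕ} {p : ℂ → EE d} {v : EE d} {ρ : ℝ} (hρ : 0 < ρ)
    (hp : ∀ s, ‖s‖ < ρ → DifferentiableAt ℂ p s) (hv : HasDerivAt p v 0) :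
    ∃ (w : ℂ → EE d) (B : ℝ), 0 ≤ B ∧ ∀ s, ‖s‖ ≤ ρ / 2 →
      ‖w s‖ ≤ B ∧ p s = p 0 + s • (v + s • w s) := by
  have hb : ball (0 : ℂ) ρ ∈ 𝓝 (0 : ℂ) := ball_mem_nhds 0 hρ
  have h0 : DifferentiableOn ℂ p (ball 0 ρ) := fun s hs =>
    (hp s (mem_ball_zero_iff.1 hs)).differentiableWithinAt
  have h1 : DifferentiableOn ℂ (dslope p 0) (ball 0 ρ) :=
    (Complex.differentiableOn_dslope hb).2 h0
  have h2 : DifferentiableOn ℂ (dslope (dslope p 0) 0) (ball 0 ρ) :=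
    (Complex.differentiableOn_dslope hb).2 h1
  have hsub : closedBall (0 : ℂ) (ρ / 2) ⊆ ball 0 ρ := closedBall_subset_ball (by linarith)
  obtain ⟨B, hB⟩ := (isCompact_closedBall (0 : ℂ) (ρ / 2)).exists_bound_of_continuousOn
    (h2.continuousOn.mono hsub)
  refine ⟨dslope (dslope p 0) 0, max B 0, le_max_right _ _, fun s hs => ⟨?_, ?_⟩⟩
  · exact (hB s (mem_closedBall_zero_iff.2 hs)).trans (le_max_left _ _)
  · have e1 := sub_smul_dslope p 0 s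
    have e2 := sub_smul_dslope (dslope p 0) 0 s
    rw [sub_zero] at e1 e2
    have e3 : dslope p 0 0 = v := by rw [dslope_same, hv.deriv]
    rw [e2, e3, add_sub_cancel, e1]
    abel

/-- common bounds -/
lemma common {d : ℕ} (B : ℝ) {T : Set ℂ} (hT : IsCompact T) :
    ∃ b : ℝ, 1 ≤ b ∧ ∀ x : EE d, ‖x‖ ≤ B → ∀ z ∈ T, ‖(PP x).eval z‖ ≤ b ∧ ‖(QQ x).eval z‖ ≤ b ∧
      ‖(derivative (PP x)).eval z‖ ≤ b ∧ ‖(derivative (QQ x)).eval z‖ ≤ b := by
  have hc : IsCompact (closedBall (0 : EE d) B ×ˢ T) := (isCompact_closedBall _ _).prod hT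
  obtain ⟨b1, h1⟩ := hc.exists_bound_of_continuousOn
    (f := fun q : EE d × ℂ => (PP q.1).eval q.2) PP_cd.continuous.continuousOn
  obtain ⟨b2, h2⟩ := hc.exists_bound_of_continuousOn
    (f := fun q : EE d × ℂ => (QQ q.1).eval q.2) QQ_cd.continuous.continuousOn
  obtain ⟨b3, h3⟩ := hc.exists_bound_of_continuousOn
    (f := fun q : EE d × ℂ => (derivative (PP q.1)).eval q.2) (dev_cont 0).continuousOn
  obtain ⟨b4, h4⟩ := hc.exists_bound_of_continuousOn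
    (f := fun q : EE d × ℂ => (derivative (QQ q.1)).eval q.2) (dev_cont 1).continuousOn
  refine ⟨max 1 (max (max b1 b2) (max b3 b4)), le_max_left _ _, fun x hx z hz => ?_⟩
  have hm : (x, z) ∈ closedBall (0 : EE d) B ×ˢ T := ⟨mem_closedBall_zero_iff.2 hx, hz⟩
  have k1 := h1 _ hm
  have k2 := h2 _ hm
  have k3 := h3 _ hm
  have k4 := h4 _ hm
  refine ⟨k1.trans ?_, k2.trans ?_, k3.trans ?_, k4.trans ?_⟩
  · exact le_max_of_le_right (le_max_of_le_left (le_max_left _ _))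
  · exact le_max_of_le_right (le_max_of_le_left (le_max_right _ _))
  · exact le_max_of_le_right (le_max_of_le_right (le_max_left _ _))
  · exact le_max_of_le_right (le_max_of_le_right (le_max_right _ _))

lemma contDiff_gam {d : ℕ} {p : ℂ → EE d} {ρ : ℝ}
    (hp : ∀ s, ‖s‖ < ρ → DifferentiableAt ℂ p s) {K : ℕ} {a z : ℂ} (ha : ‖a ^ K‖ < ρ)
    (hq : (QQ (p (a ^ K))).eval z ≠ 0) :
    ContDiffAt ℂ 1 (fun q : ℂ × ℂ => gam p K q.1 q.2) (a, z) := by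
  have h0 : DifferentiableOn ℂ p (ball 0 ρ) := fun s hs =>
    (hp s (mem_ball_zero_iff.1 hs)).differentiableWithinAt
  have h1 : AnalyticAt ℂ p (a ^ K) :=
    h0.analyticAt (isOpen_ball.mem_nhds (mem_ball_zero_iff.2 ha))
  have h2 : ContDiffAt ℂ 1 p (a ^ K) := h1.contDiffAt
  have h3 : ContDiffAt ℂ 1 (fun q : ℂ × ℂ => q.1 ^ K) (a, z) := contDiffAt_fst.pow K
  have h4 : ContDiffAt ℂ 1 (fun q : ℂ × ℂ => p (q.1 ^ K)) (a, z) :=
    ContDiffAt.comp (g := p) (f := fun q : ℂ × ℂ => q.1 ^ K) (a, z) h2 h3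
  have h5 : ContDiffAt ℂ 1 (fun q : ℂ × ℂ => (p (q.1 ^ K), q.2)) (a, z) :=
    h4.prodMk contDiffAt_snd
  have h6 : ContDiffAt ℂ 1 (fun q : ℂ × ℂ => (PP (p (q.1 ^ K))).eval q.2) (a, z) :=
    ContDiffAt.comp (g := fun q : EE d × ℂ => (PP q.1).eval q.2)
      (f := fun q : ℂ × ℂ => (p (q.1 ^ K), q.2)) (a, z) PP_cd.contDiffAt h5
  have h7 : ContDiffAt ℂ 1 (fun q : ℂ × ℂ => (QQ (p (q.1 ^ K))).eval q.2) (a, z) :=
    ContDiffAt.comp (g := fun q : EE d × ℂ => (QQ q.1).eval q.2)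
      (f := fun q : ℂ × ℂ => (p (q.1 ^ K), q.2)) (a, z) QQ_cd.contDiffAt h5
  exact h6.div h7 hq

theorem t_INSTG : S_INSTG := by
  intro d p v ρ hρ hp hv Ks hKc hKQ _ K hK A ρ₂ hρ₂ hstep hstab c hc hW ζ hζ0 hζD hζW hsum hne
  set P : ℂ[X] := PP (p 0) with hP
  set Q : ℂ[X] := QQ (p 0) with hQ
  set N : ℂ[X] := varS (p 0) v with hN
  obtain ⟨w, B, hB0, hw⟩ := expand hρ hp hv
  obtain ⟨δ₁, hδ₁, hδ₁s⟩ := hKc.exists_cthickening_subset_open
    (isOpen_ne.preimage Q.continuous : IsOpen ((fun z => Q.eval z) ⁻¹' {w | w ≠ 0})) hKQ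
  have hTc : IsCompact (cthickening δ₁ Ks) := hKc.cthickening
  have hKT : Ks ⊆ cthickening δ₁ Ks := self_subset_cthickening _
  have hcT : c ∈ cthickening δ₁ Ks := hKT hc
  have hQT : ∀ z ∈ cthickening δ₁ Ks, Q.eval z ≠ 0 := fun z hz => hδ₁s hz
  -- lower bound of `Q`
  obtain ⟨m, hm, hmQ⟩ : ∃ m > (0 : ℝ), ∀ z ∈ cthickening δ₁ Ks, m ≤ ‖Q.eval z‖ := by
    obtain ⟨z0, hz0, hmin⟩ := hTc.exists_isMinOn ⟨c, hcT⟩ (Q.continuous.norm.continuousOn)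
    exact ⟨‖Q.eval z0‖, norm_pos_iff.2 (hQT z0 hz0), fun z hz => hmin hz⟩
  obtain ⟨bN, hbN0, hbN⟩ := poly_bd N hTc
  obtain ⟨bQ, hbQ0, hbQ⟩ := poly_bd (Q ^ 2) hTc
  -- common bounds
  obtain ⟨b, hb1, hb⟩ := common (d := d) (max ‖p 0‖ (‖v‖ + B)) hTc
  have hb0 : 0 < b := by linarith
  -- the cofactor
  obtain ⟨R, hR, hRc⟩ := Polynomial.exists_eq_pow_rootMultiplicity_mul_and_not_dvd
    (wr P Q) hW c
  set k : ℕ := (wr P Q).rootMultiplicity c with hk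
  have hRc' : R.eval c ≠ 0 := fun h => hRc (Polynomial.dvd_iff_isRoot.2 h)
  obtain ⟨bR, hbR0, hbR⟩ := poly_bd R hTc
  obtain ⟨mR, hmR, δR, hδR, hRlow⟩ : ∃ mR > (0 : ℝ), ∃ δR > (0 : ℝ), ∀ z, ‖z - c‖ < δR →
      mR ≤ ‖R.eval z‖ := by
    have h1 : 0 < ‖R.eval c‖ := norm_pos_iff.2 hRc'
    have h2 : ∀ᶠ z in 𝓝 c, ‖R.eval c‖ / 2 < ‖R.eval z‖ :=
      (R.continuous.norm.continuousAt (x := c)).eventually (lt_mem_nhds (half_lt_self h1))
    obtain ⟨r, hr, hrs⟩ := Metric.eventually_nhds_iff.1 h2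
    exact ⟨‖R.eval c‖ / 2, by positivity, r, hr, fun z hz => (hrs (by rwa [dist_eq_norm])).le⟩
  -- Lipschitz constants
  obtain ⟨M, hM⟩ : ∃ M : ℝ, ∀ z ∈ cthickening δ₁ Ks, z ∈ closedBall (0 : ℂ) M := by
    obtain ⟨M, hM⟩ := hTc.isBounded.exists_norm_le
    exact ⟨M, fun z hz => mem_closedBall_zero_iff.2 (hM z hz)⟩
  obtain ⟨LN, hLN0, hLN⟩ := poly_lip N M
  obtain ⟨LQ, hLQ0, hLQ⟩ := poly_lip (Q ^ 2) M
  -- the linear bound of `ζ`
  obtain ⟨Cτ, hCτ1, ρτ, hρτ, hτb⟩ : ∃ Cτ : ℝ, 1 ≤ Cτ ∧ ∃ ρτ > (0 : ℝ), ∀ b : ℂ, ‖b‖ < ρτ →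
      ‖ζ b - c‖ ≤ Cτ * ‖b‖ := by
    have hd0 : DifferentiableAt ℂ ζ 0 := hζD 0 (by rw [norm_zero]; exact hρ₂)
    obtain ⟨C0, hC0⟩ := hd0.isBigO_sub.bound
    obtain ⟨r, hr, hrs⟩ := Metric.mem_nhds_iff.1 hC0
    refine ⟨max C0 1, le_max_right _ _, r, hr, fun b hb => ?_⟩
    have h1 := hrs (mem_ball_zero_iff.2 hb)
    have h2 : ‖ζ b - ζ 0‖ ≤ C0 * ‖b - 0‖ := h1
    rw [hζ0, sub_zero] at h2
    exact h2.trans (mul_le_mul_of_nonneg_right (le_max_left _ _) (norm_nonneg _))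
  have hC0 : 0 < Cτ := by linarith
  -- the choice of `ρ₁`
  obtain ⟨ρ₁, hρ₁, hρ₁1, hρ₁2, hρ₁ρ, hρ₁τ, hρ₁m, hρ₁δ, hρ₁R⟩ : ∃ ρ₁ : ℝ, 0 < ρ₁ ∧ ρ₁ ≤ 1 ∧ ρ₁ ≤ ρ₂ ∧
      ρ₁ ≤ ρ / 2 ∧ ρ₁ ≤ ρτ ∧ ρ₁ * b ≤ m / 2 ∧ Cτ * ρ₁ ≤ δ₁ ∧ Cτ * ρ₁ < δR := by
    have h1 : 0 < m / 2 / b := by positivity
    have h2 : 0 < δ₁ / Cτ := by positivity
    have h3 : 0 < δR / Cτ := by positivity
    have h4 : ∀ᶠ r in 𝓝[>] (0 : ℝ), r ∈ Ioo (0 : ℝ) 1 ∧ r ∈ Ioo (0 : ℝ) ρ₂ ∧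
        r ∈ Ioo (0 : ℝ) (ρ / 2) ∧ r ∈ Ioo (0 : ℝ) ρτ ∧ r ∈ Ioo (0 : ℝ) (m / 2 / b) ∧
        r ∈ Ioo (0 : ℝ) (δ₁ / Cτ) ∧ r ∈ Ioo (0 : ℝ) (δR / Cτ) := by
      filter_upwards [Ioo_mem_nhdsGT one_pos, Ioo_mem_nhdsGT hρ₂, Ioo_mem_nhdsGT (half_pos hρ),
        Ioo_mem_nhdsGT hρτ, Ioo_mem_nhdsGT h1, Ioo_mem_nhdsGT h2, Ioo_mem_nhdsGT h3]
        with r a1 a2 a3 a4 a5 a6 a7
      exact ⟨a1, a2, a3, a4, a5, a6, a7⟩
    obtain ⟨r, a1, a2, a3, a4, a5, a6, a7⟩ := h4.exists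
    refine ⟨r, a1.1, a1.2.le, a2.2.le, a3.2.le, a4.2.le, ?_, ?_, ?_⟩
    · have := a5.2.le
      rwa [le_div_iff₀ hb0] at this
    · have := a6.2.le
      rw [le_div_iff₀ hC0] at this
      linarith
    · have := a7.2
      rw [lt_div_iff₀ hC0] at this
      linarith
  -- powers of `a`
  have hpw : ∀ (a : ℂ) (i j : ℕ), ‖a‖ < ρ₁ → i ≤ j → ‖a‖ ^ j ≤ ‖a‖ ^ i := fun a i j ha hij =>
    pow_le_pow_of_le_one (norm_nonneg _) (ha.le.trans hρ₁1) hij
  have hs0 : ∀ a : ℂ, ‖a‖ < ρ₁ → ‖a ^ K‖ ≤ ‖a‖ := by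
    intro a ha
    rw [norm_pow]
    have := hpw a 1 K ha hK
    rwa [pow_one] at this
  have hs1 : ∀ a : ℂ, ‖a‖ < ρ₁ → ‖a ^ K‖ ≤ ρ₁ := fun a ha => (hs0 a ha).trans ha.le
  have hs2 : ∀ a : ℂ, ‖a‖ < ρ₁ → ‖a ^ K‖ ≤ ρ / 2 := fun a ha => (hs1 a ha).trans hρ₁ρ
  have hs3 : ∀ a : ℂ, ‖a‖ < ρ₁ → ‖a ^ K‖ ≤ 1 := fun a ha => (hs1 a ha).trans hρ₁1
  -- the vectors
  have hx0 : ‖p 0‖ ≤ max ‖p 0‖ (‖v‖ + B) := le_max_left _ _
  have hxv : ‖v‖ ≤ max ‖p 0‖ (‖v‖ + B) := le_max_of_le_right (by linarith)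
  have hxw : ∀ a : ℂ, ‖a‖ < ρ₁ → ‖w (a ^ K)‖ ≤ max ‖p 0‖ (‖v‖ + B) := fun a ha =>
    le_max_of_le_right (((hw _ (hs2 a ha)).1).trans (by linarith [norm_nonneg v]))
  have hxu : ∀ a : ℂ, ‖a‖ < ρ₁ → ‖v + a ^ K • w (a ^ K)‖ ≤ max ‖p 0‖ (‖v‖ + B) := by
    intro a ha
    refine le_max_of_le_right ((norm_add_le _ _).trans ?_)
    rw [norm_smul]
    have h1 := (hw _ (hs2 a ha)).1
    have h2 := hs3 a ha
    have h3 : ‖a ^ K‖ * ‖w (a ^ K)‖ ≤ 1 * B := mul_le_mul h2 h1 (norm_nonneg _) zero_le_one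
    linarith
  have hPs : ∀ a : ℂ, ‖a‖ < ρ₁ → PP (p (a ^ K)) = P + C (a ^ K) * PP (v + a ^ K • w (a ^ K)) := by
    intro a ha
    rw [(hw _ (hs2 a ha)).2, PP_add_smul]
  have hQs : ∀ a : ℂ, ‖a‖ < ρ₁ → QQ (p (a ^ K)) = Q + C (a ^ K) * QQ (v + a ^ K • w (a ^ K)) := by
    intro a ha
    rw [(hw _ (hs2 a ha)).2, QQ_add_smul]
  have hPe : ∀ a z : ℂ, ‖a‖ < ρ₁ → (PP (p (a ^ K))).eval z =
      P.eval z + a ^ K * (PP (v + a ^ K • w (a ^ K))).eval z := by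
    intro a z ha
    rw [hPs a ha, eval_add, eval_mul, eval_C]
  have hQe : ∀ a z : ℂ, ‖a‖ < ρ₁ → (QQ (p (a ^ K))).eval z =
      Q.eval z + a ^ K * (QQ (v + a ^ K • w (a ^ K))).eval z := by
    intro a z ha
    rw [hQs a ha, eval_add, eval_mul, eval_C]
  have hHe : ∀ a z : ℂ, (PP (v + a ^ K • w (a ^ K))).eval z =
      (PP v).eval z + a ^ K * (PP (w (a ^ K))).eval z := by
    intro a z
    rw [PP_add_smul, eval_add, eval_mul, eval_C]
  have hGe : ∀ a z : ℂ, (QQ (v + a ^ K • w (a ^ K))).eval z =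
      (QQ v).eval z + a ^ K * (QQ (w (a ^ K))).eval z := by
    intro a z
    rw [QQ_add_smul, eval_add, eval_mul, eval_C]
  -- the denominator
  have hden : ∀ a z : ℂ, ‖a‖ < ρ₁ → z ∈ cthickening δ₁ Ks →
      m / 2 ≤ ‖Q.eval z + a ^ K * (QQ (v + a ^ K • w (a ^ K))).eval z‖ := by
    intro a z ha hz
    set g : ℂ := (QQ (v + a ^ K • w (a ^ K))).eval z with hg
    have hgb : ‖g‖ ≤ b := (hb _ (hxu a ha) z hz).2.1
    have h1 : ‖a ^ K * g‖ ≤ m / 2 := by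
      rw [norm_mul]
      calc ‖a ^ K‖ * ‖g‖ ≤ ρ₁ * b :=
            mul_le_mul (hs1 a ha) hgb (norm_nonneg _) hρ₁.le
        _ ≤ m / 2 := hρ₁m
    have h2 := hmQ z hz
    have h3 : ‖Q.eval z‖ ≤ ‖Q.eval z + a ^ K * g‖ + ‖a ^ K * g‖ := by
      have := norm_sub_le (Q.eval z + a ^ K * g) (a ^ K * g)
      rwa [add_sub_cancel_right] at this
    linarith
  have hden0 : ∀ a z : ℂ, ‖a‖ < ρ₁ → z ∈ cthickening δ₁ Ks →
      Q.eval z + a ^ K * (QQ (v + a ^ K • w (a ^ K))).eval z ≠ 0 := by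
    intro a z ha hz h0
    have := hden a z ha hz
    rw [h0, norm_zero] at this
    linarith
  have hden1 : ∀ a z : ℂ, ‖a‖ < ρ₁ → z ∈ cthickening δ₁ Ks →
      (QQ (p (a ^ K))).eval z ≠ 0 := by
    intro a z ha hz
    rw [hQe a z ha]
    exact hden0 a z ha hz
  have hfam : ∀ a z : ℂ, ‖a‖ < ρ₁ → gam p K a z =
      (P.eval z + a ^ K * (PP (v + a ^ K • w (a ^ K))).eval z) /
        (Q.eval z + a ^ K * (QQ (v + a ^ K • w (a ^ K))).eval z) := by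
    intro a z ha
    have e1 : gam p K a z = (PP (p (a ^ K))).eval z / (QQ (p (a ^ K))).eval z := rfl
    rw [e1, hPe a z ha, hQe a z ha]
  have hNe : ∀ z : ℂ, N.eval z = (PP v).eval z * Q.eval z - P.eval z * (QQ v).eval z := by
    intro z
    rw [hN, varS, eval_sub, eval_mul, eval_mul]
  -- closeness
  have hclose : ∀ a z, ‖a‖ < ρ₁ → z ∈ cthickening δ₁ Ks →
      ‖gam p K a z - rf P Q z‖ ≤ 2 * b ^ 2 / (m * (m / 2)) * ‖a‖ ^ K := by
    intro a z ha hz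
    have hq := hQT z hz
    have hd := hden0 a z ha hz
    rw [hfam a z ha]
    have e1 : rf P Q z = P.eval z / Q.eval z := rfl
    rw [e1, alg1 hq hd, mul_div_assoc, norm_mul, norm_pow, mul_comm]
    obtain ⟨u1, u2, -, -⟩ := hb _ (hxu a ha) z hz
    obtain ⟨p1, p2, -, -⟩ := hb _ hx0 z hz
    refine mul_le_mul_of_nonneg_right (ndiv (two_bd u1 p2 p1 u2) (by positivity) ?_) (by positivity)
    rw [norm_mul]
    exact mul_le_mul (hmQ z hz) (hden a z ha hz) (by positivity) (norm_nonneg _)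
  -- first order
  have hfirst : ∀ a z, ‖a‖ < ρ₁ → z ∈ cthickening δ₁ Ks →
      ‖gam p K a z - rf P Q z - a ^ K * (N.eval z / Q.eval z ^ 2)‖ ≤
        (b * (2 * b ^ 2) / (m ^ 2 * (m / 2)) + 2 * b ^ 2 / m ^ 2) * ‖a‖ ^ (K + 1) := by
    intro a z ha hz
    have hq := hQT z hz
    have hd := hden0 a z ha hz
    have hd2 := hden a z ha hz
    obtain ⟨u1, u2, -, -⟩ := hb _ (hxu a ha) z hz
    obtain ⟨p1, p2, -, -⟩ := hb _ hx0 z hz
    obtain ⟨w1, w2, -, -⟩ := hb _ (hxw a ha) z hz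
    rw [hfam a z ha]
    have e1 : rf P Q z = P.eval z / Q.eval z := rfl
    rw [hHe, hGe] at *
    rw [e1, hNe, alg2 hq hd, norm_mul, mul_comm]
    refine mul_le_mul ((norm_add_le _ _).trans (add_le_add ?_ ?_)) ?_ (norm_nonneg _)
      (by positivity)
    · rw [norm_neg]
      refine ndiv ?_ (by positivity) ?_
      · rw [norm_mul]
        exact mul_le_mul u2 (two_bd u1 p2 p1 u2) (norm_nonneg _) hb0.le
      · rw [norm_mul, norm_pow]
        exact mul_le_mul (pow_le_pow_left₀ hm.le (hmQ z hz) 2) hd2 (by positivity)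
          (by positivity)
    · refine ndiv (two_bd w1 p2 p1 w2) (by positivity) ?_
      rw [norm_pow]
      exact pow_le_pow_left₀ hm.le (hmQ z hz) 2
    · rw [norm_pow, norm_pow, ← pow_mul]
      exact hpw a (K + 1) (K * 2) ha (by omega)
  -- Lipschitz bound of `h`
  have hlip : ∀ z ∈ cthickening δ₁ Ks, ∀ z' ∈ cthickening δ₁ Ks,
      ‖N.eval z / Q.eval z ^ 2 - N.eval z' / Q.eval z' ^ 2‖ ≤
        (LN * bQ + bN * LQ) / (m ^ 2 * m ^ 2) * ‖z - z'‖ := by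
    intro z hz z' hz'
    have hq2 : ∀ z ∈ cthickening δ₁ Ks, m ^ 2 ≤ ‖Q.eval z ^ 2‖ := by
      intro z hz
      rw [norm_pow]
      exact pow_le_pow_left₀ hm.le (hmQ z hz) 2
    rw [alg3 (pow_ne_zero 2 (hQT z hz)) (pow_ne_zero 2 (hQT z' hz')), div_mul_eq_mul_div]
    refine ndiv ?_ (by positivity) ?_
    · have e1 : Q.eval z' ^ 2 = (Q ^ 2).eval z' := by rw [eval_pow]
      have e2 : Q.eval z ^ 2 = (Q ^ 2).eval z := by rw [eval_pow]
      rw [e1, e2]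
      calc ‖(N.eval z - N.eval z') * (Q ^ 2).eval z' -
            N.eval z' * ((Q ^ 2).eval z - (Q ^ 2).eval z')‖
          ≤ ‖(N.eval z - N.eval z') * (Q ^ 2).eval z'‖ +
            ‖N.eval z' * ((Q ^ 2).eval z - (Q ^ 2).eval z')‖ := norm_sub_le _ _
        _ ≤ (LN * ‖z - z'‖) * bQ + bN * (LQ * ‖z - z'‖) := by
            rw [norm_mul, norm_mul]
            exact add_le_add
              (mul_le_mul (hLN z (hM z hz) z' (hM z' hz')) (hbQ z' hz') (norm_nonneg _)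
                (by positivity))
              (mul_le_mul (hbN z' hz') (hLQ z (hM z hz) z' (hM z' hz')) (norm_nonneg _) hbN0)
        _ = (LN * bQ + bN * LQ) * ‖z - z'‖ := by ring
    · rw [norm_mul]
      exact mul_le_mul (hq2 z hz) (hq2 z' hz') (by positivity) (norm_nonneg _)
  -- near the critical point
  have hball : ∀ z, ‖z - c‖ ≤ δ₁ → z ∈ cthickening δ₁ Ks := by
    intro z hz
    exact closedBall_subset_cthickening hc δ₁ (by rwa [mem_closedBall, dist_eq_norm])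
  have hWe : ∀ x : ℂ, (wr P Q).eval x = (x - c) ^ k * R.eval x := by
    intro x
    rw [hR, eval_mul, eval_pow, eval_sub, eval_X, eval_C]
  have hcrit : ∀ z, ‖z - c‖ ≤ δ₁ → ‖rf P Q z - rf P Q c‖ ≤ bR / m ^ 2 * ‖z - c‖ ^ (k + 1) := by
    intro z hz
    have h1 : ∀ x ∈ closedBall c ‖z - c‖, x ∈ cthickening δ₁ Ks := by
      intro x hx
      rw [mem_closedBall, dist_eq_norm] at hx
      exact hball x (hx.trans hz)
    have h2 := (convex_closedBall c ‖z - c‖).norm_image_sub_le_of_norm_deriv_le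
      (f := rf P Q) (C := bR / m ^ 2 * ‖z - c‖ ^ k)
      (fun x hx => (rf_hasDerivAt (P := P) (hQT x (h1 x hx))).differentiableAt)
      (fun x hx => by
        rw [(rf_hasDerivAt (P := P) (hQT x (h1 x hx))).deriv]
        rw [hWe x, mul_div_assoc, norm_mul, norm_pow, mul_comm]
        rw [mem_closedBall, dist_eq_norm] at hx
        refine mul_le_mul (ndiv (hbR x (h1 x (by rwa [mem_closedBall, dist_eq_norm])))
          (by positivity) ?_) (pow_le_pow_left₀ (norm_nonneg _) hx k) (by positivity)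
          (by positivity)
        rw [norm_pow]
        exact pow_le_pow_left₀ hm.le
          (hmQ x (h1 x (by rwa [mem_closedBall, dist_eq_norm]))) 2)
      (mem_closedBall_self (norm_nonneg _)) (by rw [mem_closedBall, dist_eq_norm])
    refine h2.trans (le_of_eq ?_)
    rw [pow_succ]
    ring
  -- the marked point
  have hζ : ∀ a : ℂ, ‖a‖ < ρ₁ → ‖ζ a - c‖ ≤ Cτ * ‖a‖ := fun a ha =>
    hτb _ (lt_of_lt_of_le ha hρ₁τ)
  have hζ' : ∀ a : ℂ, ‖a‖ < ρ₁ → ‖ζ a - c‖ ≤ Cτ * ρ₁ := fun a ha =>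
    (hζ a ha).trans (mul_le_mul_of_nonneg_left ha.le hC0.le)
  have hζδ : ∀ a : ℂ, ‖a‖ < ρ₁ → ‖ζ a - c‖ ≤ δ₁ := fun a ha => (hζ' a ha).trans hρ₁δ
  -- the variation of the numerator of the derivative
  have hwr : ∀ a : ℂ, ‖a‖ < ρ₁ → ‖(wr P Q).eval (ζ a)‖ ≤ 6 * b ^ 2 * ‖a‖ ^ K := by
    intro a ha
    have hz : ζ a ∈ cthickening δ₁ Ks := hball _ (hζδ a ha)
    obtain ⟨u1, u2, u3, u4⟩ := hb _ (hxu a ha) _ hz
    obtain ⟨p1, p2, p3, p4⟩ := hb _ hx0 _ hz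
    have h0 := hζW a (lt_of_lt_of_le ha hρ₁2)
    rw [hPs a ha, hQs a ha] at h0
    set H : ℂ[X] := PP (v + a ^ K • w (a ^ K)) with hH
    set G : ℂ[X] := QQ (v + a ^ K • w (a ^ K)) with hG
    have h1 : (wr P Q).eval (ζ a) = -(a ^ K * (((derivative P).eval (ζ a) * G.eval (ζ a) -
        P.eval (ζ a) * (derivative G).eval (ζ a)) + ((derivative H).eval (ζ a) * Q.eval (ζ a) -
        H.eval (ζ a) * (derivative Q).eval (ζ a)) + a ^ K * ((derivative H).eval (ζ a) * G.eval (ζ a) -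
        H.eval (ζ a) * (derivative G).eval (ζ a)))) := by
      simp only [wr, derivative_add, derivative_mul, derivative_C, zero_mul, zero_add, eval_sub,
        eval_add, eval_mul, eval_C] at h0 ⊢
      linear_combination h0
    rw [h1, norm_neg, norm_mul, norm_pow, mul_comm]
    refine mul_le_mul_of_nonneg_right ?_ (by positivity)
    refine norm_add₃_le.trans ?_
    have h2 := two_bd p3 u2 p1 u4
    have h3 := two_bd u3 p2 u1 p4
    have h4 := two_bd u3 u2 u1 u4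
    rw [norm_mul]
    have h5 := mul_le_mul (hs3 a ha) h4 (norm_nonneg _) zero_le_one
    linarith
  have hζk : ∀ a : ℂ, ‖a‖ < ρ₁ → ‖ζ a - c‖ ^ k ≤ 6 * b ^ 2 / mR * ‖a‖ ^ K := by
    intro a ha
    have h1 := hwr a ha
    rw [hWe, norm_mul, norm_pow] at h1
    have h2 := hRlow (ζ a) (lt_of_le_of_lt (hζ' a ha) hρ₁R)
    have h3 : ‖ζ a - c‖ ^ k * mR ≤ ‖ζ a - c‖ ^ k * ‖R.eval (ζ a)‖ :=
      mul_le_mul_of_nonneg_left h2 (by positivity)
    rw [div_mul_eq_mul_div, le_div_iff₀ hmR]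
    linarith
  -- the constants
  set c1 : ℝ := b * (2 * b ^ 2) / (m ^ 2 * (m / 2)) + 2 * b ^ 2 / m ^ 2 with hc1
  set c2 : ℝ := (LN * bQ + bN * LQ) / (m ^ 2 * m ^ 2) with hc2
  set c3 : ℝ := bR / m ^ 2 * (6 * b ^ 2 / mR * Cτ) with hc3
  set c4 : ℝ := bN / m ^ 2 with hc4
  have hc1' : 0 ≤ c1 := by positivity
  have hc2' : 0 ≤ c2 := by positivity
  have hc3' : 0 ≤ c3 := by positivity
  have hc4' : 0 ≤ c4 := by positivity
  refine ⟨ρ₁, δ₁, 2 * b ^ 2 / (m * (m / 2)) + 1, c1 + c2 * Cτ + c3 + c2 + c4 + 1, ?_, ?_⟩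
  · exact
      { q_pos := hK
        ρ₁_pos := hρ₁
        ρ₁_le := hρ₁1
        δ₁_pos := hδ₁
        C₁_pos := by positivity
        zero := by
          funext z
          show rf (PP (p (0 ^ K))) (QQ (p (0 ^ K))) z = rf P Q z
          rw [zero_pow (by omega)]
        smooth := fun a z ha hz => contDiff_gam hp (lt_of_le_of_lt (hs2 a ha) (by linarith))
          (hden1 a z ha hz)
        close := fun a z ha hz => (hclose a z ha hz).trans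
          (mul_le_mul_of_nonneg_right (by linarith) (by positivity))
        step := fun a z ha hz h => hstep a z (lt_of_lt_of_le ha hρ₁2) (hden1 a z ha hz) h
        stab := hstab }
  · refine
      { diff := fun a ha => hζD a (lt_of_lt_of_le ha hρ₁2)
        near := fun a ha => hball _ (hζδ a ha)
        C₃_pos := by positivity
        val := fun a ha => ?_
        fam := fun a z ha hz => (hfirst a z ha hz).trans
          (mul_le_mul_of_nonneg_right ?_ (by positivity))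
        lip := fun z hz z' hz' => (hlip z (hKT hz) z' hz').trans
          (mul_le_mul_of_nonneg_right ?_ (by positivity))
        bd := fun z hz => ?_
        sum := ?_
        ne := hne }
    · set z : ℂ := ζ a with hz
      have hzT : z ∈ cthickening δ₁ Ks := hball _ (hζδ a ha)
      have h1 := hfirst a z ha hzT
      have h2 := hlip z hzT c hcT
      have h3 := hcrit z (hζδ a ha)
      have h4 : ‖z - c‖ ≤ Cτ * ‖a‖ := hζ a ha
      have h4' : ‖z - c‖ ^ k ≤ 6 * b ^ 2 / mR * ‖a‖ ^ K := hζk a ha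
      have e1 : gam p K a z - rf P Q c - a ^ K * (N.eval c / Q.eval c ^ 2) =
          (gam p K a z - rf P Q z - a ^ K * (N.eval z / Q.eval z ^ 2)) +
          a ^ K * (N.eval z / Q.eval z ^ 2 - N.eval c / Q.eval c ^ 2) +
          (rf P Q z - rf P Q c) := by ring
      show ‖gam p K a z - rf P Q c - a ^ K * (N.eval c / Q.eval c ^ 2)‖ ≤ _
      rw [e1]
      have h5 : ‖a ^ K * (N.eval z / Q.eval z ^ 2 - N.eval c / Q.eval c ^ 2)‖ ≤
          c2 * Cτ * ‖a‖ ^ (K + 1) := by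
        rw [norm_mul, norm_pow]
        calc ‖a‖ ^ K * ‖N.eval z / Q.eval z ^ 2 - N.eval c / Q.eval c ^ 2‖
            ≤ ‖a‖ ^ K * (c2 * (Cτ * ‖a‖)) :=
              mul_le_mul_of_nonneg_left (h2.trans (mul_le_mul_of_nonneg_left h4 hc2'))
                (by positivity)
          _ = c2 * Cτ * ‖a‖ ^ (K + 1) := by
              rw [pow_succ]
              ring
      have h6 : ‖rf P Q z - rf P Q c‖ ≤ c3 * ‖a‖ ^ (K + 1) := by
        refine h3.trans ?_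
        calc bR / m ^ 2 * ‖z - c‖ ^ (k + 1)
            = bR / m ^ 2 * (‖z - c‖ ^ k * ‖z - c‖) := by rw [pow_succ ‖z - c‖ k]
          _ ≤ bR / m ^ 2 * ((6 * b ^ 2 / mR * ‖a‖ ^ K) * (Cτ * ‖a‖)) :=
              mul_le_mul_of_nonneg_left (mul_le_mul h4' h4 (norm_nonneg _) (by positivity))
                (by positivity)
          _ = c3 * ‖a‖ ^ (K + 1) := by
              rw [hc3, pow_succ ‖a‖ K]
              ring
      have h7 : 0 ≤ ‖a‖ ^ (K + 1) := by positivity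
      calc _ ≤ ‖gam p K a z - rf P Q z - a ^ K * (N.eval z / Q.eval z ^ 2)‖ +
            ‖a ^ K * (N.eval z / Q.eval z ^ 2 - N.eval c / Q.eval c ^ 2)‖ +
            ‖rf P Q z - rf P Q c‖ := norm_add₃_le
        _ ≤ c1 * ‖a‖ ^ (K + 1) + c2 * Cτ * ‖a‖ ^ (K + 1) + c3 * ‖a‖ ^ (K + 1) :=
            add_le_add (add_le_add h1 h5) h6
        _ ≤ (c1 + c2 * Cτ + c3 + c2 + c4 + 1) * ‖a‖ ^ (K + 1) := by nlinarith
    · have : 0 ≤ c2 * Cτ := by positivity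
      linarith
    · have : 0 ≤ c2 * Cτ := by positivity
      linarith
    · have h1 : ‖N.eval z / Q.eval z ^ 2‖ ≤ c4 := by
        refine ndiv (hbN z (hKT hz)) (by positivity) ?_
        rw [norm_pow]
        exact pow_le_pow_left₀ hm.le (hmQ z (hKT hz)) 2
      have : 0 ≤ c2 * Cτ := by positivity
      show ‖N.eval z / Q.eval z ^ 2‖ ≤ _
      linarith
    · have h1 := (hasSum_nat_add_iff' 1).2 hsum.hasSum
      rw [Finset.sum_range_one] at h1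
      have e0 : term P Q N c 0 = N.eval c / Q.eval c ^ 2 := by
        unfold term
        rw [Function.iterate_zero, id, deriv_id, div_one]
      rw [e0] at h1
      refine h1.congr_fun fun i => ?_
      show N.eval ((rf P Q)^[i] (rf P Q c)) / Q.eval ((rf P Q)^[i] (rf P Q c)) ^ 2 /
        deriv (rf P Q)^[i + 1] (rf P Q c) = _
      unfold term
      rw [← Function.iterate_succ_apply]

end Pool.Agent.H591.TF207
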